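import Pool.Agent.H29.EX.Targets
import Pool.Agent.H69.DP.CO5

/-!
# Two dilations, primes of the larger dilation: the core (COR)
-/

set_option autoImplicit false

open Complex MeasureTheory Set Filter Topology

namespace Pool.Agent.H50.EX

open Pool.Agent.H29.EX Pool.Agent.H25.DP Pool.Agent.H25.DL Pool.Agent.H69.DP

lemma TQ_eq (a : ℝ) (X : ℕ) (ρ : ℕ → ℂ) (u : ℝ) : TQ a X ρ u = TP X ρ (a * u) := rfl

lemma continuous_TQ (a : ℝ) (X : ℕ) (ρ : ℕ → ℂ) : Continuous (TQ a X ρ) :=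
  (continuous_TP X ρ).comp (continuous_const.mul continuous_id)

/-- the core for general parameters -/
theorem core_gen (h1 : T_EXX) (h2 : T_SHX) (h3 : T_LLX) (h4 : T_BIR) (h5 : T_BXR) (h6 : T_RDR)
    (h7 : T_DLR) (h8 : T_CN) {ι : Type} [Fintype ι] (f : ι → Fac) (Y : ℂ → ℂ)
    (d t₀ r ε x₁ x₂ D D' ρ₀ : ℝ) (hY : Phase Y d t₀) (hd0 : 0 < d) (hd52 : d < 5 / 2)
    (hr : 1 < r) (h3d : 3 * d < 2 * r + 1) (h6d : 6 * d < 3 * r + 4)
    (hfr : ∀ l, (f l).r = r ∨ (f l).r = 1) (hden : DenR f r) (hε : 0 < ε)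
    (hx1p : 0 < x₁) (hx12 : x₁ < x₂) (hx1d : x₁ < d) (hdx : d - x₁ < D) (hx2D : x₂ < D')
    (hx2r : 2 * x₂ < r) (hD0 : 0 < D) (hD1 : D < 1) (hDr : 2 * D < r) (h6D : 6 * D < 3 + 2 * r)
    (hD'0 : 0 < D') (hD'1 : D' < 3 / 2) (hD'r : 2 * D' < r) (h6D' : 6 * D' < 3 + 2 * r)
    (hρ0 : 0 < ρ₀) (hρ1 : ρ₀ ≤ 1) (hρD : ρ₀ ≤ 3 - 2 * D) (hρD' : ρ₀ ≤ 3 - 2 * D')
    (hrx : (r + 1) * x₂ < 2 * r) :
    ∃ β₁ : ℝ, 0 < β₁ ∧ ∀ β : ℝ, β₁ ≤ β → ∀ C : ℝ, ∃ T₀ : ℝ, ∀ T : ℝ, T₀ ≤ T →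
      ∀ G : Set ℝ, MeasurableSet G → G ⊆ Icc (5 * T / 4) (7 * T / 4) →
      (∀ u ∈ G, Clean f Y β C T u) →
      T ^ (ρ₀ - ε) ≤ volume.real (Icc (5 * T / 4) (7 * T / 4) \ G) := by
  have hr0 : 0 < r := by linarith
  have hr1 : ∀ l, 1 ≤ (f l).r := by
    intro l
    rcases hfr l with h | h
    · rw [h]; linarith
    · rw [h]
  have hx2p : 0 < x₂ := by linarith
  obtain ⟨w₁, hw₁⟩ : ∃ w : ℝ, w = x₁ / r := ⟨_, rfl⟩
  obtain ⟨w₂, hw₂⟩ : ∃ w : ℝ, w = x₂ / r := ⟨_, rfl⟩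
  have hrw1 : r * w₁ = x₁ := by rw [hw₁]; field_simp
  have hrw2 : r * w₂ = x₂ := by rw [hw₂]; field_simp
  have hw1p : 0 < w₁ := by rw [hw₁]; positivity
  have hw12 : w₁ < w₂ := by rw [hw₁, hw₂]; exact div_lt_div_of_pos_right hx12 hr0
  have hw2p : 0 < w₂ := hw1p.trans hw12
  have hw2h : 2 * w₂ < 1 := by
    rw [hw₂, ← mul_div_assoc, div_lt_one hr0]; exact hx2r
  have hrw : (r + 1) * w₂ < 2 := by
    rw [hw₂, ← mul_div_assoc, div_lt_iff₀ hr0]; exact hrx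
  obtain ⟨β₁, hβ₁, hEXX⟩ := h1 ι f Y d t₀ x₁ D hY hx1p hx1d hdx hr1
  obtain ⟨β₂, hβ₂, hLLX⟩ := h3 ι f x₂ D' hx2p hx2D hr1
  refine ⟨max β₁ β₂, lt_max_of_lt_left hβ₁, fun β hβ C => ?_⟩
  have hβ0 : 0 < β := hβ₁.trans_le ((le_max_left _ _).trans hβ)
  obtain ⟨T₁, hEXX⟩ := hEXX β ((le_max_left _ _).trans hβ)
  obtain ⟨T₂, hLLX⟩ := hLLX β ((le_max_right _ _).trans hβ)
  obtain ⟨T₃, hSHX⟩ := h2 ι f Y β C x₂ hβ0 hx2p.le
  obtain ⟨c₁, T₄, hc₁, hBIL⟩ := h4 ι f Y d t₀ r w₁ w₂ D hY hd0 hd52 hr h3d h6d hfr hw1p hw12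
    hw2h hD0 hD1
  obtain ⟨T₅, hRDX⟩ := h6 ι f Y d t₀ β hβ0 hY
  obtain ⟨c₂, hc₂, hBX⟩ := h5 ι f Y d t₀ r D w₂ ρ₀ ε hY hr hfr hD0 (by linarith) hDr h6D
    hw2p (by linarith) hρ0 hρ1 hρD hε
  obtain ⟨c₃, hc₃, hBX'⟩ := h5 ι f Y d t₀ r D' w₂ ρ₀ ε hY hr hfr hD'0 hD'1 hD'r h6D'
    hw2p (by linarith) hρ0 hρ1 hρD' hε
  obtain ⟨T₆, hBX⟩ := hBX β hβ0
  obtain ⟨T₇, hBX'⟩ := hBX' β hβ0
  obtain ⟨c, hc⟩ : ∃ c : ℝ, c = min (min c₁ c₂) (min c₃ (1 / 4)) := ⟨_, rfl⟩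
  have hc0 : 0 < c := by
    rw [hc]; exact lt_min (lt_min hc₁ hc₂) (lt_min hc₃ (by norm_num))
  have hcc1 : c ≤ c₁ := by rw [hc]; exact (min_le_left _ _).trans (min_le_left _ _)
  have hcc2 : c ≤ c₂ := by rw [hc]; exact (min_le_left _ _).trans (min_le_right _ _)
  have hcc3 : c ≤ c₃ := by rw [hc]; exact (min_le_right _ _).trans (min_le_left _ _)
  have hcc4 : c ≤ 1 / 4 := by rw [hc]; exact (min_le_right _ _).trans (min_le_right _ _)
  obtain ⟨T₈, hDLB⟩ := h7 ι f r w₁ w₂ D' β (c / 2) hr hfr hden hw1p hw12 hw2h hrw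
    (by rw [hrw2]; exact hx2D) hD'1 hβ0 (by linarith)
  obtain ⟨C₁, hC₁, hCN⟩ := h8 ι f 1 D hD0 one_pos hr1
  obtain ⟨C₂, hC₂, hCN'⟩ := h8 ι f 1 D' hD'0 one_pos hr1
  obtain ⟨T₉, hT₉⟩ := tendsto_aux2 C₁ C₁ (1 - c) (1 - c / 2) (by linarith)
  obtain ⟨T₁₀, hT₁₀⟩ := tendsto_aux2 C₂ C₂ (1 - c) (1 - c / 2) (by linarith)
  obtain ⟨T₁₁, hT₁₁⟩ := tendsto_aux2 3 1 (1 - c) (1 - c / 2) (by linarith)
  have hlog := Real.tendsto_log_atTop
  have hTlog : ∀ᶠ T : ℝ in atTop, t₀ + Real.log T ≤ T := by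
    have h1 : (fun T : ℝ => t₀ + Real.log T) =o[atTop] fun T : ℝ => T := by
      refine Asymptotics.IsLittleO.add ?_ Real.isLittleO_log_id_atTop
      exact Asymptotics.isLittleO_const_left.2 (Or.inr (tendsto_norm_atTop_atTop))
    have h2 := h1.bound zero_lt_one
    filter_upwards [h2, eventually_ge_atTop (0 : ℝ)] with T hT hT0
    rw [one_mul, Real.norm_eq_abs, Real.norm_eq_abs, abs_of_nonneg hT0] at hT
    exact (le_abs_self _).trans hT
  obtain ⟨T₀, hT₀⟩ := eventually_atTop.1 (hTlog.and ((hlog.eventually_ge_atTop 1).and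
    ((eventually_ge_atTop T₁).and ((eventually_ge_atTop T₂).and ((eventually_ge_atTop T₃).and
      ((eventually_ge_atTop T₄).and ((eventually_ge_atTop T₅).and ((eventually_ge_atTop T₆).and
        ((eventually_ge_atTop T₇).and ((eventually_ge_atTop T₈).and ((eventually_ge_atTop T₉).and
          ((eventually_ge_atTop T₁₀).and ((eventually_ge_atTop T₁₁).and
            (eventually_ge_atTop 3))))))))))))))
  refine ⟨T₀, fun T hT G hGm hG hclean => ?_⟩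
  obtain ⟨hTl, hl1, hT1, hT2, hT3, hT4, hT5, hT6, hT7, hT8, hT9, hT10, hT11, hT33⟩ := hT₀ T hT
  have hT0 : 0 < T := by linarith
  have hT1' : 1 ≤ T := by linarith
  by_contra hcon
  push Not at hcon
  have hwin : 5 * T / 4 + T / 2 = 7 * T / 4 := by ring
  have hsub : Icc (5 * T / 4) (7 * T / 4) ⊆ Icc T (2 * T) :=
    Icc_subset_Icc (by linarith) (by linarith)
  obtain ⟨X, ρ, hX1, hX2, hρ, hlow⟩ := hDLB T hT8
  rw [hwin] at hlow
  have hXpos : 0 < (X : ℝ) := (Real.rpow_pos_of_pos hT0 _).trans_le hX1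
  have hX1' : (1 : ℝ) ≤ X := by
    have h0 : 0 < X := by exact_mod_cast hXpos
    exact_mod_cast h0
  -- the size of log X
  have hξ1 : x₁ * Real.log T ≤ r * Real.log X := by
    have h0 : w₁ * Real.log T ≤ Real.log X := by
      rw [← Real.log_rpow hT0]
      exact Real.log_le_log (Real.rpow_pos_of_pos hT0 _) hX1
    calc x₁ * Real.log T = r * (w₁ * Real.log T) := by rw [← hrw1]; ring
      _ ≤ r * Real.log X := mul_le_mul_of_nonneg_left h0 hr0.le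
  have hξ2 : r * Real.log X ≤ x₂ * Real.log T := by
    have h0 : Real.log X ≤ w₂ * Real.log T := by
      rw [← Real.log_rpow hT0]
      exact Real.log_le_log hXpos hX2
    calc r * Real.log X ≤ r * (w₂ * Real.log T) := mul_le_mul_of_nonneg_left h0 hr0.le
      _ = x₂ * Real.log T := by rw [← hrw2]; ring
  have hξ0 : 0 ≤ r * Real.log X := mul_nonneg hr0.le (Real.log_nonneg hX1')
  obtain ⟨ξ, hξ⟩ : ∃ ξ : ℝ, ξ = r * Real.log X := ⟨_, rfl⟩
  rw [← hξ] at hξ1 hξ2 hξ0 hlow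
  obtain ⟨E, hE⟩ : ∃ E : Set ℝ, E = Icc (5 * T / 4) (7 * T / 4) \ G := ⟨_, rfl⟩
  have hEm : MeasurableSet E := by rw [hE]; exact measurableSet_Icc.diff hGm
  have hEs : E ⊆ Icc (5 * T / 4) (7 * T / 4) := by rw [hE]; exact sdiff_subset
  rw [← hE] at hcon
  -- continuity
  have cK : ∀ j : ι → ℕ, ContinuousOn (KX f Y β ξ (Real.log T) j) (Icc (5 * T / 4) (7 * T / 4)) :=
    fun j => (continuousOn_KX f hY β ξ (Real.log T) (by linarith) j).mono fun u hu =>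
      mem_Ici.2 (hTl.trans (hsub hu).1)
  have cL : ∀ j : ι → ℕ, ContinuousOn (LX f β ξ (Real.log T) j) (Icc (5 * T / 4) (7 * T / 4)) :=
    fun j => (continuous_LX f β ξ (Real.log T) j).continuousOn
  have cP : ContinuousOn (TQ r X ρ) (Icc (5 * T / 4) (7 * T / 4)) :=
    (continuous_TQ r X ρ).continuousOn
  have cw : Continuous (fun u : ℝ => (om ((u - 5 * T / 4) / (T / 2)) : ℂ)) := by
    exact continuous_ofReal.comp (continuous_om.comp (by fun_prop))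
  -- number of blocks
  have hN := (hCN T hT33).1
  have hN' := (hCN' T hT33).1
  have hpow : ∀ c' : ℝ, c ≤ c' → T ^ (1 - c') ≤ T ^ (1 - c) := fun c' hc' =>
    Real.rpow_le_rpow_of_exponent_le hT1' (by linarith)
  have hTc : 0 < T ^ (1 - c) := Real.rpow_pos_of_pos hT0 _
  have hTc2 : 0 < T ^ (1 - c / 2) := Real.rpow_pos_of_pos hT0 _
  -- the three bounds
  have hA1 : ∫ u in E, ‖∑ j ∈ mains f 1 D' T, LX f β ξ (Real.log T) j u‖ * ‖TQ r X ρ u‖ ≤
      T ^ (1 - c / 2) / 16 := by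
    refine (sum_blocks hEm hEs (mains f 1 D' T) (fun j => LX f β ξ (Real.log T) j) (TQ r X ρ) cL cP
      (A := T ^ (1 - c)) ?_).trans ?_
    · intro j hj
      exact ((hBX' T hT7 j hj X ρ ξ hX2 hρ E hEm (hEs.trans hsub) hcon.le).2).trans (hpow _ hcc3)
    · refine le_trans ?_ (hT₁₀ T hT10)
      exact mul_le_mul_of_nonneg_right hN' hTc.le
  have hA2 : ∫ u in E, ‖∑ j ∈ mains f 1 D T, KX f Y β ξ (Real.log T) j u‖ * ‖TQ r X ρ u‖ ≤
      T ^ (1 - c / 2) / 16 := by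
    refine (sum_blocks hEm hEs (mains f 1 D T) (fun j => KX f Y β ξ (Real.log T) j) (TQ r X ρ) cK
      cP (A := T ^ (1 - c)) ?_).trans ?_
    · intro j hj
      exact ((hBX T hT6 j hj X ρ ξ hX2 hρ E hEm (hEs.trans hsub) hcon.le).1).trans (hpow _ hcc2)
    · refine le_trans ?_ (hT₉ T hT9)
      exact mul_le_mul_of_nonneg_right hN hTc.le
  have hA3 : ‖∫ u in (5 * T / 4)..(7 * T / 4), (om ((u - 5 * T / 4) / (T / 2)) : ℂ) *
      (∑ j ∈ mains f 1 D T, KX f Y β ξ (Real.log T) j u) * TQ r X ρ u‖ ≤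
      T ^ (1 - c / 2) / 16 := by
    have e1 : ∫ u in (5 * T / 4)..(7 * T / 4), (om ((u - 5 * T / 4) / (T / 2)) : ℂ) *
        (∑ j ∈ mains f 1 D T, KX f Y β ξ (Real.log T) j u) * TQ r X ρ u =
        ∑ j ∈ mains f 1 D T, ∫ u in (5 * T / 4)..(7 * T / 4),
          (om ((u - 5 * T / 4) / (T / 2)) : ℂ) * KX f Y β ξ (Real.log T) j u * TQ r X ρ u := by
      rw [← intervalIntegral.integral_finsetSum]
      · refine intervalIntegral.integral_congr fun u _ => ?_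
        simp only [Finset.mul_sum, Finset.sum_mul]
      · intro j _
        apply ContinuousOn.intervalIntegrable
        rw [uIcc_of_le (by linarith)]
        exact (cw.continuousOn.mul (cK j)).mul cP
    rw [e1]
    refine le_trans ?_ (hT₉ T hT9)
    calc ‖∑ j ∈ mains f 1 D T, ∫ u in (5 * T / 4)..(7 * T / 4),
          (om ((u - 5 * T / 4) / (T / 2)) : ℂ) * KX f Y β ξ (Real.log T) j u * TQ r X ρ u‖
        ≤ ∑ _j ∈ mains f 1 D T, T ^ (1 - c) := by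
          refine norm_sum_le_of_le _ fun j hj => ?_
          have h9 := hRDX T hT5 j r X ρ ξ (5 * T / 4) (T / 2) (T ^ (1 - c₁)) (by linarith)
            (by linarith) (by linarith) (fun y hy => hBIL T hT4 j hj X ρ y hX1 hX2 hρ hy)
          rw [hwin] at h9
          exact h9.trans (hpow _ hcc1)
      _ = ((mains f 1 D T).card : ℝ) * T ^ (1 - c) := by rw [Finset.sum_const, nsmul_eq_mul]
      _ ≤ _ := mul_le_mul_of_nonneg_right hN hTc.le
  -- clean heights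
  have hclose : ∀ u ∈ G, ‖(∑ j ∈ mains f 1 D' T, LX f β ξ (Real.log T) j u) -
      ∑ j ∈ mains f 1 D T, KX f Y β ξ (Real.log T) j u‖ ≤ 3 * T ^ (-(1 / 2) : ℝ) := by
    intro u hu
    have hu' := hsub (hG hu)
    have k1 := hEXX T hT1 u hu' ξ hξ1
    have k2 := hLLX T hT2 u ξ hξ0 hξ2
    have k3 := hSHX T hT3 u hu' (hclean u hu) ξ hξ0 hξ2
    have e : (∑ j ∈ mains f 1 D' T, LX f β ξ (Real.log T) j u) -
        ∑ j ∈ mains f 1 D T, KX f Y β ξ (Real.log T) j u =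
        (KR f Y β ξ (Real.log T) u - ∑ j ∈ mains f 1 D T, KX f Y β ξ (Real.log T) j u) -
        (KR f Y β ξ (Real.log T) u - LR f β ξ (Real.log T) u) -
        (LR f β ξ (Real.log T) u - ∑ j ∈ mains f 1 D' T, LX f β ξ (Real.log T) j u) := by ring
    rw [e]
    have k4 := norm_sub_le ((KR f Y β ξ (Real.log T) u -
      ∑ j ∈ mains f 1 D T, KX f Y β ξ (Real.log T) j u) -
        (KR f Y β ξ (Real.log T) u - LR f β ξ (Real.log T) u))
      (LR f β ξ (Real.log T) u - ∑ j ∈ mains f 1 D' T, LX f β ξ (Real.log T) j u)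
    have k5 := norm_sub_le (KR f Y β ξ (Real.log T) u -
      ∑ j ∈ mains f 1 D T, KX f Y β ξ (Real.log T) j u)
        (KR f Y β ξ (Real.log T) u - LR f β ξ (Real.log T) u)
    linarith
  have hfinal := compare (a := 5 * T / 4) (b := 7 * T / 4) (by linarith)
    (w := fun u : ℝ => (om ((u - 5 * T / 4) / (T / 2)) : ℂ))
    (SK := fun u => ∑ j ∈ mains f 1 D T, KX f Y β ξ (Real.log T) j u)
    (SL := fun u => ∑ j ∈ mains f 1 D' T, LX f β ξ (Real.log T) j u)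
    (P := TQ r X ρ) cw.continuousOn (continuousOn_finsetSum _ fun j _ => cK j)
    (continuousOn_finsetSum _ fun j _ => cL j) cP hGm hG
    (δ := 3 * T ^ (-(1 / 2) : ℝ)) (Q := (X : ℝ) ^ (1 / 2 : ℝ)) (A₁ := T ^ (1 - c / 2) / 16)
    (A₂ := T ^ (1 - c / 2) / 16) (A₃ := T ^ (1 - c / 2) / 16)
    (by positivity) (by positivity) (by
      intro u hu
      rw [Complex.norm_real, Real.norm_eq_abs]
      apply abs_om_le
      · apply div_nonneg _ (by linarith)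
        linarith [hu.1]
      · rw [div_le_one (by linarith)]
        linarith [hu.2]) hclose
    (fun u _ => norm_TP_le X ρ hXpos hρ (r * u)) (by rw [← hE]; exact hA1)
    (by rw [← hE]; exact hA2) hA3
  -- the error on the clean heights
  have herr : 3 * T ^ (-(1 / 2) : ℝ) * (X : ℝ) ^ (1 / 2 : ℝ) * (7 * T / 4 - 5 * T / 4) ≤
      T ^ (1 - c / 2) / 16 := by
    refine le_trans ?_ (hT₁₁ T hT11)
    have k1 : (X : ℝ) ^ (1 / 2 : ℝ) ≤ T ^ (1 / 4 : ℝ) := by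
      calc (X : ℝ) ^ (1 / 2 : ℝ) ≤ (T ^ w₂) ^ (1 / 2 : ℝ) :=
            Real.rpow_le_rpow hXpos.le hX2 (by norm_num)
        _ = T ^ (w₂ * (1 / 2)) := by rw [← Real.rpow_mul hT0.le]
        _ ≤ T ^ (1 / 4 : ℝ) := Real.rpow_le_rpow_of_exponent_le hT1' (by linarith)
    have k2 : T ^ (-(1 / 2) : ℝ) * T ^ (1 / 4 : ℝ) * T = T ^ (3 / 4 : ℝ) := by
      nth_rw 3 [← Real.rpow_one T]
      rw [← Real.rpow_add hT0, ← Real.rpow_add hT0]
      norm_num
    have k3 : T ^ (3 / 4 : ℝ) ≤ T ^ (1 - c) :=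
      Real.rpow_le_rpow_of_exponent_le hT1' (by linarith)
    have k4 : 0 < T ^ (-(1 / 2) : ℝ) := Real.rpow_pos_of_pos hT0 _
    calc 3 * T ^ (-(1 / 2) : ℝ) * (X : ℝ) ^ (1 / 2 : ℝ) * (7 * T / 4 - 5 * T / 4)
        ≤ 3 * T ^ (-(1 / 2) : ℝ) * T ^ (1 / 4 : ℝ) * (7 * T / 4 - 5 * T / 4) := by
          have : 0 ≤ 7 * T / 4 - 5 * T / 4 := by linarith
          gcongr
      _ = 3 / 2 * (T ^ (-(1 / 2) : ℝ) * T ^ (1 / 4 : ℝ) * T) := by ring
      _ = 3 / 2 * T ^ (3 / 4 : ℝ) := by rw [k2]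
      _ ≤ 3 * Real.log T ^ (1 : ℝ) * T ^ (1 - c) := by
          rw [Real.rpow_one, mul_assoc]
          have k5 : T ^ (1 - c) ≤ Real.log T * T ^ (1 - c) := le_mul_of_one_le_left hTc.le hl1
          linarith
  have hlast := hlow.trans (hfinal.trans (add_le_add (add_le_add le_rfl herr) le_rfl))
  linarith

lemma ev_lt {a : ℝ} (ha : 0 < a) : ∀ᶠ k in 𝓝[>] (0 : ℝ), k < a :=
  (Ioo_mem_nhdsGT ha : Ioo 0 a ∈ 𝓝[>] (0 : ℝ)) |> fun h => by
    filter_upwards [h] with k hk using hk.2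

lemma ev_pos : ∀ᶠ k in 𝓝[>] (0 : ℝ), 0 < k := by
  filter_upwards [self_mem_nhdsWithin] with k hk using hk

/-- (COR) the core: many bad heights -/
theorem pf_COR (h1 : T_EXX) (h2 : T_SHX) (h3 : T_LLX) (h4 : T_BIR) (h5 : T_BXR) (h6 : T_RDR)
    (h7 : T_DLR) (h8 : Pool.Agent.H25.DL.T_CN) : T_COR := by
  intro ι _ f Y d t₀ r ε hY hd0 hd52 hr h3d h6d hfr hden hε
  rcases lt_or_ge d 2 with hd2 | hd2
  · -- the case d < 2
    obtain ⟨k, k0, k1, k2, k3, k4⟩ := (ev_pos.and ((ev_lt (show 0 < d / 2 by linarith)).and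
      ((ev_lt (show 0 < (1 - d / 2) / 2 by linarith)).and
        ((ev_lt (show 0 < (r - d) / 4 by linarith)).and
          (ev_lt (show (0 : ℝ) < 1 / 6 by norm_num)))))).exists
    have hmin : min 1 (5 - 2 * d) = 1 := min_eq_left (by linarith)
    rw [hmin]
    refine core_gen h1 h2 h3 h4 h5 h6 h7 h8 f Y d t₀ r ε (d / 2 - k) (d / 2) (d / 2 + 2 * k)
      (d / 2 + 2 * k) 1 hY hd0 hd52 hr h3d h6d hfr hden hε (by linarith) (by linarith)
      (by linarith) (by linarith) (by linarith) (by linarith) (by linarith) (by linarith)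
      (by linarith) (by linarith) (by linarith) (by linarith) (by linarith) (by linarith)
      one_pos le_rfl (by linarith) (by linarith) ?_
    nlinarith
  · -- the case 2 ≤ d
    have hr83 : 8 / 3 < r := by linarith
    have hg1 : 0 < 2 * r + 9 - 6 * d := by
      rcases le_total r 5 with h | h <;> linarith
    have hg2 : 0 < 2 * r - (r + 1) * (d - 1) := by
      rcases lt_or_ge r 3 with h | h
      · have h9 : (r + 1) * (d - 1) ≤ (r + 1) * (r / 2 - 1 / 3) :=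
          mul_le_mul_of_nonneg_left (by linarith) (by linarith)
        nlinarith [mul_pos (sub_pos.2 hr83) (sub_pos.2 h)]
      · have h9 : (r + 1) * (d - 1) < (r + 1) * (3 / 2) :=
          mul_lt_mul_of_pos_left (by linarith) (by linarith)
        nlinarith
    obtain ⟨k, k0, k1, k2, k3, k4, k5⟩ := (ev_pos.and ((ev_lt (show (0 : ℝ) < 1 / 18 by
      norm_num)).and ((ev_lt (show 0 < (5 - 2 * d) / 6 by linarith)).and
        ((ev_lt (show 0 < (2 * r + 9 - 6 * d) / 18 by linarith)).and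
          ((ev_lt (show 0 < (2 * r - (r + 1) * (d - 1)) / (2 * (r + 1)) by positivity)).and
            (ev_lt (show 0 < ε / 12 by positivity))))))).exists
    have hmin : min 1 (5 - 2 * d) = 5 - 2 * d := min_eq_right (by linarith)
    rw [hmin]
    have hrx : (r + 1) * (d - 1 + 2 * k) < 2 * r := by
      rw [lt_div_iff₀ (by linarith)] at k4
      nlinarith
    obtain ⟨β₁, hβ₁, hH⟩ := core_gen h1 h2 h3 h4 h5 h6 h7 h8 f Y d t₀ r (ε / 2) (d - 1 + k)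
      (d - 1 + 2 * k) (1 - k / 2) (d - 1 + 3 * k) (5 - 2 * d - 6 * k) hY hd0 hd52 hr h3d h6d hfr
      hden (by linarith) (by linarith) (by linarith)
      (by linarith) (by linarith) (by linarith) (by linarith) (by linarith) (by linarith)
      (by linarith) (by linarith) (by linarith) (by linarith) (by linarith) (by linarith)
      (by linarith) (by linarith) (by linarith) (by linarith) hrx
    refine ⟨β₁, hβ₁, fun β hβ C => ?_⟩
    obtain ⟨T₀, hT₀⟩ := hH β hβ C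
    refine ⟨max T₀ 1, fun T hT G hGm hG hc => ?_⟩
    refine le_trans ?_ (hT₀ T ((le_max_left _ _).trans hT) G hGm hG hc)
    exact Real.rpow_le_rpow_of_exponent_le ((le_max_right _ _).trans hT) (by linarith)

end Pool.Agent.H50.EX
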